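import Pool.Agent.Run7.h425.RN.Iface

/-!
# Project RN, piece MIX: the angle between the past and the future
-/

set_option autoImplicit false
set_option synthInstance.maxHeartbeats 400000

namespace Run7.h929.RN

open MeasureTheory Real Pool.Agent.Run7.h425.RN
open scoped ENNReal

/-- comparison of the negative powers -/
theorem pw_le (a y z : ℝ) (ha : 1 ≤ |a|) (hy : 0 ≤ y) (hz : 0 ≤ z) (h : z ≤ 10 * |a| * y) :
    pw (1 / 8) y ≤ ENNReal.ofReal (2 * |a|) * pw (1 / 8) z := by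
  unfold pw
  rw [abs_of_nonneg hy, abs_of_nonneg hz, ENNReal.rpow_neg, ENNReal.rpow_neg]
  have hs0 : ENNReal.ofReal (2 * |a|) ≠ 0 := by
    rw [Ne, ENNReal.ofReal_eq_zero, not_le]
    linarith
  have hst : ENNReal.ofReal (2 * |a|) ≠ ⊤ := ENNReal.ofReal_ne_top
  have h1 : ENNReal.ofReal z ≤ ENNReal.ofReal (2 * |a|) ^ 8 * ENNReal.ofReal y := by
    rw [← ENNReal.ofReal_pow (by positivity), ← ENNReal.ofReal_mul (by positivity)]
    apply ENNReal.ofReal_le_ofReal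
    refine h.trans (mul_le_mul_of_nonneg_right ?_ hy)
    have h2 : |a| ≤ |a| ^ 8 := le_self_pow₀ ha (by norm_num)
    have h3 : (2 * |a|) ^ 8 = 256 * |a| ^ 8 := by ring
    rw [h3]
    nlinarith
  have h2 : ENNReal.ofReal z ^ (1 / 8 : ℝ) ≤
      ENNReal.ofReal (2 * |a|) * ENNReal.ofReal y ^ (1 / 8 : ℝ) := by
    refine (ENNReal.rpow_le_rpow h1 (by norm_num)).trans_eq ?_
    rw [ENNReal.mul_rpow_of_nonneg _ _ (by norm_num : (0 : ℝ) ≤ 1 / 8)]
    congr 1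
    rw [← ENNReal.rpow_natCast, ← ENNReal.rpow_mul]
    norm_num
  have h3 : (ENNReal.ofReal y ^ (1 / 8 : ℝ))⁻¹ = ENNReal.ofReal (2 * |a|) *
      (ENNReal.ofReal (2 * |a|) * ENNReal.ofReal y ^ (1 / 8 : ℝ))⁻¹ := by
    rw [ENNReal.mul_inv (Or.inl hs0) (Or.inl hst), ← mul_assoc,
      ENNReal.mul_inv_cancel hs0 hst, one_mul]
  rw [h3]
  gcongr

theorem pw_measurable (r : ℝ) : Measurable (pw r) := by
  unfold pw
  exact (ENNReal.measurable_ofReal.comp measurable_norm).pow_const _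

theorem oms2 : OpensMeasurableSpace (Tc × (ℕ → Tc)) := inferInstance

theorem oms3 : OpensMeasurableSpace (Tc × Tc × (ℕ → Tc)) := by
  have := oms2
  exact Prod.opensMeasurableSpace

theorem oms4 : OpensMeasurableSpace (Tc × Tc × Tc × (ℕ → Tc)) := by
  have := oms3
  exact Prod.opensMeasurableSpace

theorem oms5 : OpensMeasurableSpace (Tc × Tc × Tc × Tc × (ℕ → Tc)) := by
  have := oms4
  exact Prod.opensMeasurableSpace

theorem t_MIX : S_KER → S_SWAP → S_BLOCK → S_CONT → S_BND → S_COC → S_MIX := by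
  intro hKER hSWAP hBLOCK hCONT hBND hCOC ν _ D hν a ha p B hB m
  obtain ⟨hBND1, hBND2⟩ := hBND a ha
  -- continuity of `J (g a x)`
  have hJ : Continuous fun x : Tc => J (g a x) := by
    have h1 := (hCONT a 1).2.comp
      (f := fun x : Tc => (((fun _ => (0 : Tc)) : ℕ → Tc), ((x, 0) : T2))) (by fun_prop)
    have h2 : ((fun q : (ℕ → Tc) × T2 => A a q.1 q.2 1) ∘
        fun x : Tc => (((fun _ => (0 : Tc)) : ℕ → Tc), ((x, 0) : T2))) = fun x : Tc => J (g a x) := by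
      funext x
      change (J (g a x)).comp (ContinuousLinearMap.id ℝ (ℝ × ℝ)) = J (g a x)
      rw [ContinuousLinearMap.comp_id]
    rwa [h2] at h1
  let B' : L2 := (J (g a p.1)).comp B
  have hB' : B' ≠ 0 := by
    intro h
    have h1 := (hBND2 p.1 B).2.1
    rw [show (J (g a p.1)).comp B = B' from rfl, h, norm_zero, mul_zero] at h1
    exact hB (norm_le_zero_iff.mp h1)
  let AM : Tc × Tc × Tc × Tc × (ℕ → Tc) → L2 := fun q => A a q.2.2.2.2 (q.2.2.2.1, q.2.2.1) m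
  have hAM : Continuous AM :=
    (hCONT a m).2.comp (f := fun q : Tc × Tc × Tc × Tc × (ℕ → Tc) =>
      (q.2.2.2.2, ((q.2.2.2.1, q.2.2.1) : T2))) (by fun_prop)
  let F : Tc × Tc × Tc × Tc × (ℕ → Tc) → ℝ≥0∞ := fun q =>
    pw (1 / 8) ‖((((AM q).comp (J (g a q.2.2.1))).comp (J (g a q.2.1))).comp (J (g a q.1))).comp B'‖ *
      (ENNReal.ofReal ‖AM q‖) ^ (1 / 8 : ℝ)
  have hF : Measurable F := by
    have := oms5
    have hJ1 : Continuous fun q : Tc × Tc × Tc × Tc × (ℕ → Tc) => J (g a q.1) :=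
      hJ.comp continuous_fst
    have hJ2 : Continuous fun q : Tc × Tc × Tc × Tc × (ℕ → Tc) => J (g a q.2.1) :=
      hJ.comp (by fun_prop)
    have hJ3 : Continuous fun q : Tc × Tc × Tc × Tc × (ℕ → Tc) => J (g a q.2.2.1) :=
      hJ.comp (by fun_prop)
    have h1 : Continuous fun q : Tc × Tc × Tc × Tc × (ℕ → Tc) =>
        ‖((((AM q).comp (J (g a q.2.2.1))).comp (J (g a q.2.1))).comp (J (g a q.1))).comp B'‖ :=
      ((((hAM.clm_comp hJ3).clm_comp hJ2).clm_comp hJ1).clm_comp continuous_const).norm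
    exact ((pw_measurable _).comp h1.measurable).mul
      ((ENNReal.measurable_ofReal.comp hAM.norm.measurable).pow_const _)
  have hint : ∀ ω : ℕ → Tc, pw (1 / 8) ‖(A a ω p (4 + m)).comp B‖ *
      (ENNReal.ofReal ‖A a (sh 4 ω) (orb a ω p 4) m‖) ^ (1 / 8 : ℝ) =
      F ((orb a ω p 1).1, (orb a ω p 2).1, (orb a ω p 3).1, (orb a ω p 4).1, sh 4 ω) := by
    intro ω
    have h1 := ((hCOC a p).1 ω 4 m).2
    have h2 : orb a ω p 4 = ((orb a ω p 4).1, (orb a ω p 3).1) := rfl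
    have h3 : A a ω p 4 = (J (g a (orb a ω p 3).1)).comp ((J (g a (orb a ω p 2).1)).comp
        ((J (g a (orb a ω p 1).1)).comp ((J (g a p.1)).comp (ContinuousLinearMap.id ℝ (ℝ × ℝ))))) := rfl
    rw [h1, h3]
    change _ = pw (1 / 8) ‖((((A a (sh 4 ω) ((orb a ω p 4).1, (orb a ω p 3).1) m).comp
      (J (g a (orb a ω p 3).1))).comp (J (g a (orb a ω p 2).1))).comp (J (g a (orb a ω p 1).1))).comp
      ((J (g a p.1)).comp B)‖ *
      (ENNReal.ofReal ‖A a (sh 4 ω) ((orb a ω p 4).1, (orb a ω p 3).1) m‖) ^ (1 / 8 : ℝ)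
    rw [← h2]
    congr 1
  rw [lintegral_congr hint]
  refine (hKER ν D hν a p F hF).trans ?_
  rw [hSWAP ν F hF]
  have hinner : ∀ (x₃ x₄ : Tc) (ω : ℕ → Tc), ∫⁻ x₁ : Tc, ∫⁻ x₂ : Tc, F (x₁, x₂, x₃, x₄, ω) ≤
      ENNReal.ofReal (512 * |a|) * (ENNReal.ofReal (2 * |a|) * (ENNReal.ofReal (2 * |a|) *
        pw (1 / 8) ‖B‖)) := by
    intro x₃ x₄ ω
    set Am : L2 := A a ω (x₄, x₃) m with hAm
    have hAmn : 1 / 2 ≤ ‖Am‖ := (hBND1 ω (x₄, x₃) m).2
    have hK : (ENNReal.ofReal ‖Am‖) ^ (1 / 8 : ℝ) ≠ ⊤ := by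
      apply ENNReal.rpow_ne_top_of_nonneg (by norm_num) ENNReal.ofReal_ne_top
    have hC : Am.comp (J (g a x₃)) ≠ 0 := by
      intro h
      have h1 := (hBND2 x₃ Am).2.2
      rw [h, norm_zero, mul_zero] at h1
      linarith
    have h1 : ∫⁻ x₁ : Tc, ∫⁻ x₂ : Tc, F (x₁, x₂, x₃, x₄, ω) =
        (∫⁻ x₁ : Tc, ∫⁻ x₂ : Tc, pw (1 / 8) ‖(((Am.comp (J (g a x₃))).comp (J (g a x₂))).comp
          (J (g a x₁))).comp B'‖) * (ENNReal.ofReal ‖Am‖) ^ (1 / 8 : ℝ) := by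
      rw [← lintegral_mul_const' _ _ hK]
      refine lintegral_congr fun x₁ => ?_
      rw [← lintegral_mul_const' _ _ hK]
    rw [h1]
    have h2 := hBLOCK a ha (Am.comp (J (g a x₃))) B' hC hB'
    have h3 : pw (1 / 8) ‖Am.comp (J (g a x₃))‖ ≤ ENNReal.ofReal (2 * |a|) * pw (1 / 8) ‖Am‖ :=
      pw_le a _ _ ha (norm_nonneg _) (norm_nonneg _) (hBND2 x₃ Am).2.2
    have h4 : pw (1 / 8) ‖B'‖ ≤ ENNReal.ofReal (2 * |a|) * pw (1 / 8) ‖B‖ :=
      pw_le a _ _ ha (norm_nonneg _) (norm_nonneg _) (hBND2 p.1 B).2.1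
    have h5 : pw (1 / 8) ‖Am‖ * (ENNReal.ofReal ‖Am‖) ^ (1 / 8 : ℝ) = 1 := by
      unfold pw
      rw [abs_of_nonneg (norm_nonneg _), ENNReal.rpow_neg]
      apply ENNReal.inv_mul_cancel _ hK
      rw [Ne, ENNReal.rpow_eq_zero_iff]
      push Not
      refine ⟨fun h => ?_, fun h => absurd h ENNReal.ofReal_ne_top⟩
      exfalso
      rw [ENNReal.ofReal_eq_zero] at h
      linarith
    calc _ ≤ (ENNReal.ofReal (512 * |a|) * ((ENNReal.ofReal (2 * |a|) * pw (1 / 8) ‖Am‖) *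
          (ENNReal.ofReal (2 * |a|) * pw (1 / 8) ‖B‖))) * (ENNReal.ofReal ‖Am‖) ^ (1 / 8 : ℝ) := by
          gcongr
          exact h2.trans (by gcongr)
      _ = ENNReal.ofReal (512 * |a|) * (ENNReal.ofReal (2 * |a|) * (ENNReal.ofReal (2 * |a|) *
          pw (1 / 8) ‖B‖)) * (pw (1 / 8) ‖Am‖ * (ENNReal.ofReal ‖Am‖) ^ (1 / 8 : ℝ)) := by
          ring
      _ = _ := by rw [h5, mul_one]
  have hall : ∫⁻ x₃ : Tc, ∫⁻ x₄ : Tc, ∫⁻ ω, ∫⁻ x₁ : Tc, ∫⁻ x₂ : Tc, F (x₁, x₂, x₃, x₄, ω) ∂volume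
      ∂volume ∂(PP ν) ≤ ENNReal.ofReal (512 * |a|) * (ENNReal.ofReal (2 * |a|) *
        (ENNReal.ofReal (2 * |a|) * pw (1 / 8) ‖B‖)) := by
    refine (lintegral_mono fun x₃ => lintegral_mono fun x₄ => lintegral_mono fun ω =>
      hinner x₃ x₄ ω).trans ?_
    rw [lintegral_const, lintegral_const, lintegral_const, measure_univ, UnitAddCircle.measure_univ]
    simp
  calc _ ≤ ENNReal.ofReal D ^ 4 * (ENNReal.ofReal (512 * |a|) * (ENNReal.ofReal (2 * |a|) *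
        (ENNReal.ofReal (2 * |a|) * pw (1 / 8) ‖B‖))) := by gcongr
    _ = ENNReal.ofReal D ^ 4 * ENNReal.ofReal (2048 * |a| ^ 3) * pw (1 / 8) ‖B‖ := by
        have h1 : ENNReal.ofReal (2048 * |a| ^ 3) = ENNReal.ofReal (512 * |a|) *
            (ENNReal.ofReal (2 * |a|) * ENNReal.ofReal (2 * |a|)) := by
          rw [← ENNReal.ofReal_mul (by positivity), ← ENNReal.ofReal_mul (by positivity)]
          congr 1
          ring
        rw [h1]
        ring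
    _ ≤ _ := by
        gcongr
        have h1 : (2048 * |a| ^ 3 * D ^ 4 : ℝ) = D ^ 4 * (2048 * |a| ^ 3) := by ring
        rw [h1, ENNReal.ofReal_mul (p := D ^ 4) (by positivity)]
        gcongr
        rcases le_or_gt 0 D with h | h
        · rw [ENNReal.ofReal_pow h]
        · rw [ENNReal.ofReal_of_nonpos h.le]
          simp

end Run7.h929.RN
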